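import Pool.Agent.H74.Leonard

set_option autoImplicit false

namespace Pool.Agent.Results.MP_9ad7dc_al.Generate

open Pool.Agent.H74.Leonard

universe u v

variable {K : Type u} [Field K] {V : Type v} [AddCommGroup V] [Module K V] {d : ℕ}

/-- rank one endomorphisms -/
def R1 (e : Module.End K V) : Prop := ∃ (f : V →ₗ[K] K) (u : V), ∀ x, e x = f x • u

lemma r1_of {E : Fin (d + 1) → Module.End K V} (h : IsProj E) (i : Fin (d + 1)) : R1 (E i) := by
  obtain ⟨b, hb⟩ := h
  exact ⟨b.coord i, b i, hb i⟩

lemma sandwich {a b : Module.End K V} (ha : R1 a) (hb : R1 b) (T : Subalgebra K (Module.End K V))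
    (haT : a ∈ T) (hbT : b ∈ T) {t : Module.End K V} (ht : t ∈ T) (hne : a * t * b ≠ 0)
    (M : Module.End K V) : a * M * b ∈ T := by
  obtain ⟨f, u, hf⟩ := ha
  obtain ⟨g, w, hg⟩ := hb
  have h1 : f (t w) ≠ 0 := by
    intro e
    apply hne
    ext x
    simp [hf, hg, e]
  have : a * M * b = (f (M w) / f (t w)) • (a * t * b) := by
    ext x
    simp only [Module.End.mul_apply, hf, hg, map_smul, LinearMap.smul_apply, smul_smul]
    congr 1
    field_simp
  rw [this]
  exact T.smul_mem (T.mul_mem (T.mul_mem haT ht) hbT) _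

lemma chain {a b c : Module.End K V} (hb : R1 b) {s t : Module.End K V} (h1 : a * s * b ≠ 0)
    (h2 : b * t * c ≠ 0) : a * (s * b * t) * c ≠ 0 := by
  obtain ⟨g, w, hg⟩ := hb
  obtain ⟨x, hx⟩ : ∃ x, (a * s * b) x ≠ 0 := by
    by_contra hh; push Not at hh; exact h1 (LinearMap.ext hh)
  obtain ⟨y, hy⟩ : ∃ x, (b * t * c) x ≠ 0 := by
    by_contra hh; push Not at hh; exact h2 (LinearMap.ext hh)
  intro e
  have := LinearMap.congr_fun e y
  simp only [Module.End.mul_apply, hg, map_smul, LinearMap.zero_apply, smul_eq_zero] at this hx hy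
  rcases this with h | h
  · exact hy (by rw [h, zero_smul])
  · exact hx (by rw [h, smul_zero])

/-- The last idempotent of one family does not kill any idempotent of the other family. -/
lemma last_ne {Es E : Fin (d + 1) → Module.End K V} (hs : IsProj Es) (h : IsProj E)
    {A : Module.End K V} (hA : Tridiag Es A) (θ : Fin (d + 1) → K)
    (hθ : ∀ j x, A (E j x) = θ j • E j x) (j : Fin (d + 1)) : Es (Fin.last d) * E j ≠ 0 := by
  intro e
  obtain ⟨x, hx⟩ := h.ne_zero j
  rcases Nat.eq_zero_or_pos d with rfl | hd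
  · apply hx
    rw [← hs.sum (E j x), Fin.sum_univ_one]
    exact LinearMap.congr_fun e x
  · refine hx (zero_of hs h hA θ hθ (d - 1) {j} (by simp; omega) _ (fun l hl => ?_) (fun i hi => ?_))
    · have : l = Fin.last d := Fin.ext (by have := l.2; simp; omega)
      rw [this]; exact LinearMap.congr_fun e x
    · exact h.orth (by simpa using hi) x

/-- The first idempotent of one family is not killed by any idempotent of the other family. -/
lemma first_ne {Es E : Fin (d + 1) → Module.End K V} (hs : IsProj Es) (h : IsProj E)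
    {A : Module.End K V} (hA : Tridiag Es A) (θ : Fin (d + 1) → K)
    (hθ : ∀ j x, A (E j x) = θ j • E j x) (j : Fin (d + 1)) : E j * Es 0 ≠ 0 := by
  intro e
  obtain ⟨x, hx⟩ := hs.ne_zero 0
  refine hx (zero_of hs h hA θ hθ 0 (Finset.univ.erase j) (by simp) _ (fun l hl => ?_)
    (fun i hi => ?_))
  · exact hs.orth (by rintro rfl; simp at hl) x
  · have : i = j := by simpa using hi
    rw [this]; exact LinearMap.congr_fun e x

/-- The idempotents `E*_0, …, E*_r, E_r, …, E_d` of a Leonard system generate the full algebra. -/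
theorem result (K : Type u) [Field K] (V : Type v) [AddCommGroup V] [Module K V]
    [FiniteDimensional K V] (d : ℕ) (hV : Module.finrank K V = d + 1)
    (A As : Module.End K V) (θ θs : Fin (d + 1) → K) (h : IsLeonardSystem A As θ θs)
    (r : Fin (d + 1)) :
    Algebra.adjoin K ((prim As θs '' {i | i ≤ r}) ∪ (prim A θ '' {j | r ≤ j})) = ⊤ := by
  classical
  obtain ⟨p1, e1⟩ := facts hV h.1
  obtain ⟨p2, e2⟩ := facts hV h.2.1
  set E := prim A θ
  set Es := prim As θs
  set T := Algebra.adjoin K ((Es '' {i | i ≤ r}) ∪ (E '' {j | r ≤ j}))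
  let e : Fin (d + 1) → Module.End K V := fun i => if i ≤ r then Es i else E i
  have m1 : ∀ i ≤ r, Es i ∈ T := fun i hi => Algebra.subset_adjoin (Or.inl ⟨i, hi, rfl⟩)
  have m2 : ∀ i, r ≤ i → E i ∈ T := fun i hi => Algebra.subset_adjoin (Or.inr ⟨i, hi, rfl⟩)
  have eT : ∀ i, e i ∈ T := fun i => by
    simp only [e]; split_ifs with hi
    · exact m1 i hi
    · exact m2 i (le_of_not_ge hi)
  have eR : ∀ i, R1 (e i) := fun i => by
    simp only [e]; split_ifs
    · exact r1_of p2 i
    · exact r1_of p1 i
  have n1 : ∀ j, E j * Es 0 ≠ 0 := first_ne p2 p1 h.2.2.2 θ e1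
  have n2 : ∀ j, Es 0 * E j ≠ 0 := fun j => by
    simpa using last_ne p2.rev p1 h.2.2.2.rev θ e1 j
  have n3 : ∀ j, E (Fin.last d) * Es j ≠ 0 := last_ne p1 p2 h.2.2.1 θs e2
  have n4 : ∀ j, Es j * E (Fin.last d) ≠ 0 := fun j => by
    simpa using first_ne p1.rev p2 h.2.2.1.rev θs e2 j
  have c1 : ∀ i, ∃ t ∈ T, e i * t * Es 0 ≠ 0 := fun i => by
    simp only [e]; split_ifs
    · exact ⟨_, T.mul_mem (T.mul_mem T.one_mem (m2 _ (Fin.le_last r))) T.one_mem,
        chain (r1_of p1 (Fin.last d)) (by simpa using n4 i) (by simpa using n1 _)⟩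
    · exact ⟨1, T.one_mem, by simpa using n1 i⟩
  have c2 : ∀ i, ∃ t ∈ T, Es 0 * t * e i ≠ 0 := fun i => by
    simp only [e]; split_ifs
    · exact ⟨_, T.mul_mem (T.mul_mem T.one_mem (m2 _ (Fin.le_last r))) T.one_mem,
        chain (r1_of p1 (Fin.last d)) (by simpa using n2 _) (by simpa using n3 i)⟩
    · exact ⟨1, T.one_mem, by simpa using n2 i⟩
  have sw : ∀ i j M, e i * M * e j ∈ T := fun i j M => by
    obtain ⟨s, hs, h1⟩ := c1 i
    obtain ⟨t, ht, h2⟩ := c2 j
    exact sandwich (eR i) (eR j) T (eT i) (eT j)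
      (T.mul_mem (T.mul_mem hs (m1 0 (Fin.zero_le r))) ht) (chain (r1_of p2 0) h1 h2) M
  let S : Module.End K V := ∑ i, e i
  -- the map `x ↦ (e i x)` is injective
  have inj : ∀ x, (∀ i, e i x = 0) → x = 0 := fun x hx => by
    have hr := r.2
    by_cases hd : (r : ℕ) = d
    · rw [← p2.sum x]
      refine Finset.sum_eq_zero fun i _ => ?_
      have := hx i
      simp only [e] at this
      rwa [if_pos (by rw [Fin.le_def]; have := i.2; omega)] at this
    · refine zero_of p2.rev p1 h.2.2.2.rev θ e1 (d - r - 1) (Finset.Iic r) (by simp; omega) x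
        (fun l hl => ?_) (fun j hj => ?_)
      · have := hx l.rev
        simp only [e] at this
        rwa [if_pos (by rw [Fin.le_def, Fin.val_rev]; omega)] at this
      · have := hx j
        simp only [e] at this
        rwa [if_neg (by simpa using hj)] at this
  have hS : Function.Injective S := by
    rw [← LinearMap.ker_eq_bot, eq_bot_iff]
    intro x hx
    have hr := r.2
    have hx' : ∑ i, e i x = 0 := by simpa [S] using hx
    rw [← Finset.sum_filter_add_sum_filter_not Finset.univ (fun i => i ≤ r)] at hx'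
    set y := ∑ i ∈ Finset.univ.filter (fun i => i ≤ r), e i x with hy
    set z := ∑ i ∈ Finset.univ.filter (fun i => ¬ i ≤ r), e i x with hz
    have ey : ∀ l, Es l y = if l ≤ r then Es l x else 0 := fun l => by
      rw [hy, map_sum, Finset.sum_congr rfl (g := fun i => if i = l then Es l x else 0)]
      · simp
      · intro b hb
        simp only [e, if_pos (Finset.mem_filter.1 hb).2]
        split_ifs with hbl
        · rw [hbl]; exact p2.idem _ _
        · exact p2.orth (Ne.symm hbl) _
    have ez : ∀ l, E l z = if l ≤ r then 0 else E l x := fun l => by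
      rw [hz, map_sum, Finset.sum_congr rfl (g := fun i => if i = l then E l x else 0)]
      · by_cases hl : l ≤ r
        · simp [hl]
        · simp [hl]
      · intro b hb
        simp only [e, if_neg (Finset.mem_filter.1 hb).2]
        split_ifs with hbl
        · rw [hbl]; exact p1.idem _ _
        · exact p1.orth (Ne.symm hbl) _
    have yz : y = -z := eq_neg_of_add_eq_zero_left hx'
    have y0 : y = 0 := zero_of p2 p1 h.2.2.2 θ e1 r (Finset.Ioi r) (by simp; omega) y
      (fun l hl => by rw [ey, if_neg (by simpa using hl)])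
      (fun j hj => by rw [yz, map_neg, ez, if_pos (by simpa using hj), neg_zero])
    have z0 : z = 0 := by rw [y0] at yz; exact neg_eq_zero.1 yz.symm
    refine inj x fun i => ?_
    simp only [e]
    split_ifs with hi
    · have := ey i; rw [if_pos hi, y0, map_zero] at this; exact this.symm
    · have := ez i; rw [if_neg hi, z0, map_zero] at this; exact this.symm
  obtain ⟨U, hU⟩ := (LinearMap.isUnit_iff_ker_eq_bot S).2 (LinearMap.ker_eq_bot.2 hS)
  rw [eq_top_iff]
  intro M _
  have : M = S * ((U⁻¹ : (Module.End K V)ˣ) * M * (U⁻¹ : (Module.End K V)ˣ)) * S := by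
    rw [← hU]; simp [mul_assoc]
  rw [this]
  generalize ((U⁻¹ : (Module.End K V)ˣ) * M * (U⁻¹ : (Module.End K V)ˣ) : Module.End K V) = N
  simp only [S, Finset.sum_mul, Finset.mul_sum]
  exact T.sum_mem fun j _ => T.sum_mem fun i _ => sw _ _ _

end Pool.Agent.Results.MP_9ad7dc_al.Generate
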